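import Mathlib

set_option autoImplicit false

namespace Pool.Agent.H513R2.IntComp

/-- one step of a stack machine. Letter `0` multiplies the top entry by three, letter `1` pushes a one,
letter `2` adds the two top entries, letter `3` multiplies them. -/
def step (c : Fin 4) (s : List ℕ) : List ℕ :=
  if c = 0 then (match s with
    | [] => []
    | a :: s => (3 * a) :: s)
  else if c = 1 then 1 :: s
  else if c = 2 then (match s with
    | a :: b :: s => (a + b) :: s
    | s => s)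
  else (match s with
    | a :: b :: s => (a * b) :: s
    | s => s)

/-- running a word on a stack -/
def run (w : List (Fin 4)) (s : List ℕ) : List ℕ := w.foldl (fun s c => step c s) s

@[simp] lemma run_nil (s : List ℕ) : run [] s = s := rfl
@[simp] lemma run_cons (c : Fin 4) (w : List (Fin 4)) (s : List ℕ) :
    run (c :: w) s = run w (step c s) := rfl
lemma run_append (w v : List (Fin 4)) (s : List ℕ) : run (w ++ v) s = run v (run w s) := by
  simp [run, List.foldl_append]

@[simp] lemma step_zero_nil : step 0 [] = [] := rfl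
@[simp] lemma step_zero (a : ℕ) (s : List ℕ) : step 0 (a :: s) = (3 * a) :: s := rfl
@[simp] lemma step_one (s : List ℕ) : step 1 s = 1 :: s := rfl
@[simp] lemma step_two (a b : ℕ) (s : List ℕ) : step 2 (a :: b :: s) = (a + b) :: s := rfl
@[simp] lemma step_three (a b : ℕ) (s : List ℕ) : step 3 (a :: b :: s) = (a * b) :: s := rfl

lemma run_replicate_zero (m a : ℕ) (s : List ℕ) :
    run (List.replicate m 0) (a :: s) = (3 ^ m * a) :: s := by
  induction m generalizing a with
  | zero => simp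
  | succ m ih =>
    rw [List.replicate_succ, run_cons, step_zero, ih]
    congr 1
    ring

lemma run_replicate_nil (m : ℕ) : run (List.replicate m 0) [] = [] := by
  induction m with
  | zero => simp
  | succ m ih => rw [List.replicate_succ, run_cons, step_zero_nil, ih]

/-- number of letters different from `0` -/
def q (w : List (Fin 4)) : ℕ := w.countP (fun c => c ≠ 0)

lemma q_append (w v : List (Fin 4)) : q (w ++ v) = q w + q v := by
  simp [q, List.countP_append]

lemma q_replicate (m : ℕ) : q (List.replicate m 0) = 0 := by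
  simp [q, List.countP_replicate]

/-- `n` has a word of length less than `2 k` with few letters other than `0`; `c` is a slack. -/
def Word (c n k : ℕ) : Prop :=
  ∃ w : List (Fin 4), (∀ s, run w s = n :: s) ∧ w.length + 1 ≤ 2 * k ∧
    3 ^ (q w + 1) * n ^ 120 ≤ 3 ^ (40 * k + c)

/-- the invariant set -/
def Inv (n k : ℕ) : Prop :=
  1 ≤ n ∧ 1 ≤ k ∧ n ^ 3 ≤ 3 ^ k ∧ ((∃ m, n = 3 ^ m) ∨ Word 0 n k)

lemma three_mul_le {m k : ℕ} (h : (3 ^ m) ^ 3 ≤ 3 ^ k) : 3 * m ≤ k := by
  rw [← pow_mul] at h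
  have := (Nat.pow_le_pow_iff_right (by norm_num : 1 < 3)).1 h
  omega

/-- every element of the invariant set has a word with slack two -/
lemma Inv.weak {n k : ℕ} (h : Inv n k) : Word 2 n k := by
  obtain ⟨hn, hk, h3, h⟩ := h
  rcases h with ⟨m, rfl⟩ | ⟨w, hw, hl, hq⟩
  · have hm := three_mul_le h3
    refine ⟨1 :: List.replicate m 0, ?_, ?_, ?_⟩
    · intro s
      rw [run_cons, step_one, run_replicate_zero, mul_one]
    · simp only [List.length_cons, List.length_replicate]
      omega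
    · have : q (1 :: List.replicate m 0) = 1 := by
        have := q_append [1] (List.replicate m 0)
        rw [q_replicate] at this
        simp [q] at this ⊢
      rw [this]
      have e : (3 ^ m) ^ 120 = ((3 ^ m) ^ 3) ^ 40 := by ring
      have h1 : ((3 ^ m) ^ 3) ^ 40 ≤ (3 ^ k) ^ 40 := Nat.pow_le_pow_left h3 40
      calc 3 ^ (1 + 1) * (3 ^ m) ^ 120 ≤ 3 ^ (1 + 1) * (3 ^ k) ^ 40 := by
            rw [e]; exact Nat.mul_le_mul_left _ h1
        _ = 3 ^ (40 * k + 2) := by ring
  · exact ⟨w, hw, hl, hq.trans (Nat.pow_le_pow_right (by norm_num) (by omega))⟩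

lemma Word.add {a i b j c : ℕ} (ha : Word 0 a i) (hb : Word 0 b j) (h2 : a + b ≤ a * b)
    (hc : c = 0) : Word c (a + b) (i + j) := by
  subst hc
  obtain ⟨w, hw, hwl, hwq⟩ := ha
  obtain ⟨v, hv, hvl, hvq⟩ := hb
  refine ⟨w ++ v ++ [2], ?_, ?_, ?_⟩
  · intro s
    rw [run_append, run_append, hw, hv]
    simp [add_comm]
  · simp only [List.length_append, List.length_cons, List.length_nil]
    omega
  · have hq : q (w ++ v ++ [2]) = q w + q v + 1 := by
      rw [q_append, q_append]; simp [q]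
    rw [hq]
    calc 3 ^ (q w + q v + 1 + 1) * (a + b) ^ 120 ≤ 3 ^ (q w + q v + 1 + 1) * (a * b) ^ 120 :=
          Nat.mul_le_mul_left _ (Nat.pow_le_pow_left h2 _)
      _ = (3 ^ (q w + 1) * a ^ 120) * (3 ^ (q v + 1) * b ^ 120) := by ring
      _ ≤ 3 ^ (40 * i + 0) * 3 ^ (40 * j + 0) := Nat.mul_le_mul hwq hvq
      _ = 3 ^ (40 * (i + j) + 0) := by ring

lemma Word.add' {a i b j : ℕ} (ha : Word 2 a i) (hb : Word 2 b j) (h2 : 6 * (a + b) ≤ 5 * (a * b)) :
    Word 0 (a + b) (i + j) := by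
  obtain ⟨w, hw, hwl, hwq⟩ := ha
  obtain ⟨v, hv, hvl, hvq⟩ := hb
  refine ⟨w ++ v ++ [2], ?_, ?_, ?_⟩
  · intro s
    rw [run_append, run_append, hw, hv]
    simp [add_comm]
  · simp only [List.length_append, List.length_cons, List.length_nil]
    omega
  · have hq : q (w ++ v ++ [2]) = q w + q v + 1 := by
      rw [q_append, q_append]; simp [q]
    rw [hq]
    have h6 : 0 < 6 ^ 120 := by positivity
    refine Nat.le_of_mul_le_mul_left ?_ h6
    calc 6 ^ 120 * (3 ^ (q w + q v + 1 + 1) * (a + b) ^ 120)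
        = 3 ^ (q w + q v + 1 + 1) * (6 * (a + b)) ^ 120 := by ring
      _ ≤ 3 ^ (q w + q v + 1 + 1) * (5 * (a * b)) ^ 120 :=
          Nat.mul_le_mul_left _ (Nat.pow_le_pow_left h2 _)
      _ = 5 ^ 120 * ((3 ^ (q w + 1) * a ^ 120) * (3 ^ (q v + 1) * b ^ 120)) := by ring
      _ ≤ 5 ^ 120 * (3 ^ (40 * i + 2) * 3 ^ (40 * j + 2)) :=
          Nat.mul_le_mul_left _ (Nat.mul_le_mul hwq hvq)
      _ = (5 ^ 120 * 3 ^ 4) * 3 ^ (40 * (i + j) + 0) := by ring
      _ ≤ 6 ^ 120 * 3 ^ (40 * (i + j) + 0) := by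
          apply Nat.mul_le_mul_right
          norm_num

lemma Word.add_one {a i j : ℕ} (ha : Word 2 a i) (h3 : 3 ≤ a) (hj : 1 ≤ j) :
    Word 0 (a + 1) (i + j) := by
  obtain ⟨w, hw, hwl, hwq⟩ := ha
  refine ⟨w ++ [1, 2], ?_, ?_, ?_⟩
  · intro s
    rw [run_append, hw]
    simp [add_comm]
  · simp only [List.length_append, List.length_cons, List.length_nil]
    omega
  · have hq : q (w ++ [1, 2]) = q w + 2 := by
      rw [q_append]; simp [q]
    rw [hq]
    have h6 : 0 < 3 ^ 120 := by positivity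
    refine Nat.le_of_mul_le_mul_left ?_ h6
    calc 3 ^ 120 * (3 ^ (q w + 2 + 1) * (a + 1) ^ 120)
        = 3 ^ (q w + 2 + 1) * (3 * (a + 1)) ^ 120 := by ring
      _ ≤ 3 ^ (q w + 2 + 1) * (4 * a) ^ 120 :=
          Nat.mul_le_mul_left _ (Nat.pow_le_pow_left (by omega) _)
      _ = 4 ^ 120 * 3 ^ 2 * (3 ^ (q w + 1) * a ^ 120) := by ring
      _ ≤ 4 ^ 120 * 3 ^ 2 * 3 ^ (40 * i + 2) := Nat.mul_le_mul_left _ hwq
      _ = (4 ^ 120 * 3 ^ 4) * 3 ^ (40 * i) := by ring
      _ ≤ (3 ^ 160) * 3 ^ (40 * i) := by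
          apply Nat.mul_le_mul_right
          norm_num
      _ = 3 ^ 120 * (3 ^ (40 * (i + 1))) := by ring
      _ ≤ 3 ^ 120 * 3 ^ (40 * (i + j) + 0) := by
          apply Nat.mul_le_mul_left
          apply Nat.pow_le_pow_right (by norm_num)
          omega

lemma inv_add_aux {a i b j : ℕ} (ha : Inv a i) (hb : Inv b j) (hab : b ≤ a) :
    Inv (a + b) (i + j) := by
  have hwa := ha.weak
  have hwb := hb.weak
  obtain ⟨ha1, hi, ha3, ha⟩ := ha
  obtain ⟨hb1, hj, hb3, hb⟩ := hb
  rcases Nat.lt_or_ge 1 b with hb2 | hb2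
  · -- both at least two
    have hadd : a + b ≤ a * b := by nlinarith
    refine ⟨by omega, by omega, ?_, Or.inr ?_⟩
    · calc (a + b) ^ 3 ≤ (a * b) ^ 3 := Nat.pow_le_pow_left hadd 3
        _ = a ^ 3 * b ^ 3 := by ring
        _ ≤ 3 ^ i * 3 ^ j := Nat.mul_le_mul ha3 hb3
        _ = 3 ^ (i + j) := by ring
    · by_cases h3 : 3 ≤ a
      · -- now 6 (a + b) ≤ 5 a b
        apply Word.add' hwa hwb
        obtain ⟨x, rfl⟩ := Nat.exists_eq_add_of_le h3
        obtain ⟨y, rfl⟩ := Nat.exists_eq_add_of_lt hb2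
        nlinarith [Nat.zero_le (x * y)]
      · -- a = b = 2
        have ha' : a = 2 := by omega
        have hb' : b = 2 := by omega
        subst ha' hb'
        have hno : ¬ ∃ m, 2 = 3 ^ m := by
          rintro ⟨m, hm⟩
          have : Odd (3 ^ m) := Odd.pow (by decide)
          rw [← hm] at this
          exact absurd this (by decide)
        have ha := ha.resolve_left hno
        have hb := hb.resolve_left hno
        exact Word.add ha hb (by norm_num) rfl
  · have hb' : b = 1 := by omega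
    subst hb'
    rcases Nat.lt_or_ge 2 a with ha2 | ha2
    · refine ⟨by omega, by omega, ?_, Or.inr (Word.add_one hwa ha2 hj)⟩
      have : (a + 1) ^ 3 ≤ 3 * a ^ 3 := by
        obtain ⟨x, rfl⟩ := Nat.exists_eq_add_of_lt ha2
        nlinarith [Nat.zero_le x, Nat.zero_le (x ^ 2), Nat.zero_le (x ^ 3)]
      calc (a + 1) ^ 3 ≤ 3 * a ^ 3 := this
        _ ≤ 3 ^ j * 3 ^ i := Nat.mul_le_mul (by
            calc 3 = 3 ^ 1 := by norm_num
              _ ≤ 3 ^ j := Nat.pow_le_pow_right (by norm_num) hj) ha3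
        _ = 3 ^ (i + j) := by ring
    · rcases Nat.lt_or_ge 1 a with ha1' | ha1'
      · -- a = 2
        have ha' : a = 2 := by omega
        subst ha'
        refine ⟨by omega, by omega, ?_, Or.inl ⟨1, by norm_num⟩⟩
        have hi2 : 2 ≤ i := by
          by_contra hcon
          have : i ≤ 1 := by omega
          have : 3 ^ i ≤ 3 ^ 1 := Nat.pow_le_pow_right (by norm_num) this
          omega
        calc (2 + 1) ^ 3 = 3 ^ 3 := by norm_num
          _ ≤ 3 ^ (i + j) := Nat.pow_le_pow_right (by norm_num) (by omega)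
      · have ha' : a = 1 := by omega
        subst ha'
        refine ⟨by omega, by omega, ?_, Or.inr ?_⟩
        · calc (1 + 1) ^ 3 ≤ 3 ^ 2 := by norm_num
            _ ≤ 3 ^ (i + j) := Nat.pow_le_pow_right (by norm_num) (by omega)
        · refine ⟨[1, 1, 2], ?_, ?_, ?_⟩
          · intro s; simp
          · simp only [List.length_cons, List.length_nil]; omega
          · have hq : q [1, 1, 2] = 3 := by simp [q]
            rw [hq]
            calc 3 ^ (3 + 1) * (1 + 1) ^ 120 ≤ 3 ^ 80 := by norm_num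
              _ ≤ 3 ^ (40 * (i + j) + 0) := Nat.pow_le_pow_right (by norm_num) (by omega)

lemma inv_add {a i b j : ℕ} (ha : Inv a i) (hb : Inv b j) : Inv (a + b) (i + j) := by
  rcases le_total b a with h | h
  · exact inv_add_aux ha hb h
  · have := inv_add_aux hb ha h
    rwa [add_comm b a, add_comm j i] at this

lemma Word.mul {a i b j : ℕ} (ha : Word 0 a i) (hb : Word 0 b j) : Word 0 (a * b) (i + j) := by
  obtain ⟨w, hw, hwl, hwq⟩ := ha
  obtain ⟨v, hv, hvl, hvq⟩ := hb
  refine ⟨w ++ v ++ [3], ?_, ?_, ?_⟩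
  · intro s
    rw [run_append, run_append, hw, hv]
    simp [mul_comm]
  · simp only [List.length_append, List.length_cons, List.length_nil]
    omega
  · have hq : q (w ++ v ++ [3]) = q w + q v + 1 := by
      rw [q_append, q_append]; simp [q]
    rw [hq]
    calc 3 ^ (q w + q v + 1 + 1) * (a * b) ^ 120
        = (3 ^ (q w + 1) * a ^ 120) * (3 ^ (q v + 1) * b ^ 120) := by ring
      _ ≤ 3 ^ (40 * i + 0) * 3 ^ (40 * j + 0) := Nat.mul_le_mul hwq hvq
      _ = 3 ^ (40 * (i + j) + 0) := by ring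

lemma Word.mul_pow {a i j m : ℕ} (ha : Word 0 a i) (hm : (3 ^ m) ^ 3 ≤ 3 ^ j) :
    Word 0 (a * 3 ^ m) (i + j) := by
  obtain ⟨w, hw, hwl, hwq⟩ := ha
  have hm' := three_mul_le hm
  refine ⟨w ++ List.replicate m 0, ?_, ?_, ?_⟩
  · intro s
    rw [run_append, hw, run_replicate_zero, mul_comm]
  · simp only [List.length_append, List.length_replicate]
    omega
  · rw [q_append, q_replicate, add_zero]
    have h1 : ((3 ^ m) ^ 3) ^ 40 ≤ (3 ^ j) ^ 40 := Nat.pow_le_pow_left hm 40
    calc 3 ^ (q w + 1) * (a * 3 ^ m) ^ 120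
        = (3 ^ (q w + 1) * a ^ 120) * ((3 ^ m) ^ 3) ^ 40 := by ring
      _ ≤ 3 ^ (40 * i + 0) * (3 ^ j) ^ 40 := Nat.mul_le_mul hwq h1
      _ = 3 ^ (40 * (i + j) + 0) := by ring

lemma inv_mul {a i b j : ℕ} (ha : Inv a i) (hb : Inv b j) : Inv (a * b) (i + j) := by
  obtain ⟨ha1, hi, ha3, ha⟩ := ha
  obtain ⟨hb1, hj, hb3, hb⟩ := hb
  refine ⟨Nat.mul_pos ha1 hb1, by omega, ?_, ?_⟩
  · calc (a * b) ^ 3 = a ^ 3 * b ^ 3 := by ring
      _ ≤ 3 ^ i * 3 ^ j := Nat.mul_le_mul ha3 hb3
      _ = 3 ^ (i + j) := by ring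
  · rcases ha with ⟨m, rfl⟩ | ha <;> rcases hb with ⟨l, rfl⟩ | hb
    · exact Or.inl ⟨m + l, by ring⟩
    · right
      have := Word.mul_pow hb ha3
      rwa [mul_comm, add_comm] at this
    · exact Or.inr (Word.mul_pow ha hb3)
    · exact Or.inr (Word.mul ha hb)

/-- reachability, as in the statement -/
def Reach (n k : ℕ) : Prop :=
  ∀ S : Set (ℕ × ℕ), (1, 1) ∈ S →
    (∀ a i b j : ℕ, (a, i) ∈ S → (b, j) ∈ S → (a + b, i + j) ∈ S ∧ (a * b, i + j) ∈ S) →
    (n, k) ∈ S

theorem Reach.inv {n k : ℕ} (h : Reach n k) : Inv n k := by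
  have := h {x | Inv x.1 x.2} ?_ ?_
  · exact this
  · exact ⟨le_refl _, le_refl _, by norm_num, Or.inl ⟨0, by norm_num⟩⟩
  · intro a i b j ha hb
    exact ⟨inv_add ha hb, inv_mul ha hb⟩

/-- weight of a letter -/
def g (c : Fin 4) : ℕ := if c = 0 then 243 else 1

lemma prod_g (w : List (Fin 4)) : (w.map g).prod = 243 ^ (w.length - q w) ∧ q w ≤ w.length := by
  have hq : ∀ w : List (Fin 4), q w ≤ w.length := fun w => List.countP_le_length
  refine ⟨?_, hq w⟩
  induction w with
  | nil => simp [q]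
  | cons c w ih =>
    rw [List.map_cons, List.prod_cons, ih]
    by_cases hc : c = 0
    · subst hc
      have h1 : q (0 :: w) = q w := by simp [q]
      have h2 := hq w
      rw [h1, List.length_cons, Nat.succ_sub h2, pow_succ]
      simp [g, mul_comm]
    · have h1 : q (c :: w) = q w + 1 := by simp [q, hc]
      rw [h1, List.length_cons]
      simp [g, hc]

lemma sum_weights (L : ℕ) : ∑ f : Fin L → Fin 4, ∏ i, g (f i) = 246 ^ L := by
  have h := Fintype.sum_pow g L
  have h2 : ∑ c : Fin 4, g c = 246 := by decide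
  rw [h2] at h
  exact h.symm

lemma exists_ofFn (L : ℕ) (v : List (Fin 4)) (hv : v.length = L) :
    ∃ f : Fin L → Fin 4, List.ofFn f = v := by
  subst hv
  exact ⟨v.get, List.ofFn_get v⟩

/-- Counting: a finite set of numbers each of which is the value of a word of length at most `L` with
at most `Q` letters other than `0`. -/
lemma card_le (L Q : ℕ) (B : Finset ℕ)
    (hB : ∀ n ∈ B, ∃ w : List (Fin 4), (∀ s, run w s = n :: s) ∧ w.length ≤ L ∧ q w ≤ Q) :
    B.card * 243 ^ (L - Q) ≤ 246 ^ L := by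
  have hB' : ∀ n ∈ B, ∃ f : Fin L → Fin 4, run (List.ofFn f) [] = [n] ∧
      243 ^ (L - Q) ≤ ∏ i, g (f i) := by
    intro n hn
    obtain ⟨w, hw, hl, hq⟩ := hB n hn
    let v := List.replicate (L - w.length) 0 ++ w
    have hv : v.length = L := by
      simp only [v, List.length_append, List.length_replicate]; omega
    have hvq : q v ≤ Q := by
      simp only [v, q_append, q_replicate]; omega
    have hvr : run v [] = [n] := by
      simp only [v, run_append, run_replicate_nil, hw]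
    obtain ⟨f, hf⟩ := exists_ofFn L v hv
    refine ⟨f, by rw [hf]; exact hvr, ?_⟩
    have h1 : ∏ i, g (f i) = ((List.ofFn f).map g).prod := by
      rw [List.map_ofFn, List.prod_ofFn]
      rfl
    rw [h1, hf, (prod_g v).1, hv]
    exact Nat.pow_le_pow_right (by norm_num) (by omega)
  choose! F hF1 hF2 using hB'
  have hinj : Set.InjOn F (B : Set ℕ) := by
    intro x hx y hy hxy
    have h1 := hF1 x hx
    have h2 := hF1 y hy
    rw [hxy, h2] at h1
    simpa using h1.symm
  calc B.card * 243 ^ (L - Q) = ∑ _n ∈ B, 243 ^ (L - Q) := by simp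
    _ ≤ ∑ n ∈ B, ∏ i, g (F n i) := Finset.sum_le_sum (fun n hn => hF2 n hn)
    _ = ∑ f ∈ B.image F, ∏ i, g (f i) := by
        rw [Finset.sum_image]
        intro x hx y hy hxy
        exact hinj hx hy hxy
    _ ≤ ∑ f : Fin L → Fin 4, ∏ i, g (f i) :=
        Finset.sum_le_sum_of_subset (Finset.subset_univ _)
    _ = 246 ^ L := sum_weights L

lemma word_bounds {n k t : ℕ} (hn : 1 ≤ n) (hnX : n ≤ 3 ^ (10 * t)) (hw : Word 0 n k)
    (hk : (k : ℝ) < (3 + 1 / 400) * Real.logb 3 (n : ℝ)) :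
    ∃ w : List (Fin 4), (∀ s, run w s = n :: s) ∧ w.length ≤ 80 * t ∧ q w ≤ t := by
  obtain ⟨w, hw, hl, hq⟩ := hw
  refine ⟨w, hw, ?_, ?_⟩
  all_goals
    have hn0 : (0 : ℝ) < n := by exact_mod_cast hn
    have h3 : Real.logb 3 (n : ℝ) ≤ 10 * t := by
      have h : (n : ℝ) ≤ 3 ^ (10 * t) := by exact_mod_cast hnX
      have h' := Real.logb_le_logb_of_le (by norm_num : (1 : ℝ) < 3) hn0 h
      rw [Real.logb_pow, Real.logb_self_eq_one (by norm_num)] at h'
      push_cast at h'
      linarith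
    have h4 : 0 ≤ Real.logb 3 (n : ℝ) :=
      Real.logb_nonneg (by norm_num) (by exact_mod_cast hn)
  · have h5 : (k : ℝ) < 40 * t + 1 := by
      have : (0 : ℝ) ≤ t := Nat.cast_nonneg t
      nlinarith
    have h6 : k < 40 * t + 1 := by exact_mod_cast h5
    omega
  · have h5 : ((3 : ℝ) ^ (q w + 1) * (n : ℝ) ^ 120) ≤ (3 : ℝ) ^ (40 * k + 0) := by
      exact_mod_cast hq
    have h6 := Real.logb_le_logb_of_le (by norm_num : (1 : ℝ) < 3) (by positivity) h5
    rw [Real.logb_mul (by positivity) (by positivity), Real.logb_pow, Real.logb_pow, Real.logb_pow,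
      Real.logb_self_eq_one (by norm_num)] at h6
    push_cast at h6
    have h7 : (q w : ℝ) < t + 1 := by nlinarith
    have h8 : q w < t + 1 := by exact_mod_cast h7
    omega

theorem main : ∃ ε : ℝ, ε > 0 ∧ ∀ N : ℕ, ∃ n : ℕ, N < n ∧ ∀ k : ℕ,
    Reach n k → (3 + ε) * Real.logb 3 (n : ℝ) ≤ (k : ℝ) := by
  refine ⟨1 / 400, by norm_num, fun N => ?_⟩
  by_contra hcon
  push Not at hcon
  set t := N + 1 with ht
  classical
  let B := (Finset.Icc (N + 1) (3 ^ (10 * t))).filter (fun n => ¬ ∃ m, n = 3 ^ m)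
  have hB : ∀ n ∈ B, ∃ w : List (Fin 4), (∀ s, run w s = n :: s) ∧ w.length ≤ 80 * t ∧
      q w ≤ t := by
    intro n hn
    simp only [B, Finset.mem_filter, Finset.mem_Icc] at hn
    obtain ⟨⟨h1, h2⟩, h3⟩ := hn
    obtain ⟨k, hk, hk2⟩ := hcon n (by omega)
    obtain ⟨h4, -, -, h5⟩ := hk.inv
    exact word_bounds h4 h2 (h5.resolve_left h3) hk2
  have hc := card_le (80 * t) t B hB
  have hc2 : B.card ≤ 649 ^ t := by
    have e1 : 80 * t - t = 79 * t := by omega
    rw [e1, pow_mul, pow_mul] at hc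
    have h246 : (246 ^ 80) ^ t ≤ (649 * 243 ^ 79) ^ t :=
      Nat.pow_le_pow_left (by norm_num) t
    rw [mul_pow] at h246
    exact Nat.le_of_mul_le_mul_right (hc.trans h246) (by positivity)
  have hsub : Finset.Icc (N + 1) (3 ^ (10 * t)) ⊆ B ∪ (Finset.range (10 * t + 1)).image (fun m => 3 ^ m) := by
    intro n hn
    by_cases h : ∃ m, n = 3 ^ m
    · obtain ⟨m, rfl⟩ := h
      rw [Finset.mem_Icc] at hn
      have := (Nat.pow_le_pow_iff_right (by norm_num : 1 < 3)).1 hn.2
      apply Finset.mem_union_right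
      rw [Finset.mem_image]
      exact ⟨m, Finset.mem_range.2 (by omega), rfl⟩
    · apply Finset.mem_union_left
      exact Finset.mem_filter.2 ⟨hn, h⟩
  have hcard := Finset.card_le_card hsub
  have hcard2 := hcard.trans (Finset.card_union_le _ _)
  have hcard3 : ((Finset.range (10 * t + 1)).image (fun m => 3 ^ m)).card ≤ 10 * t + 1 := by
    refine Finset.card_image_le.trans ?_
    simp
  rw [Nat.card_Icc] at hcard2
  have h9 : 3 ^ (10 * t) = 59049 ^ t := by
    rw [pow_mul]; norm_num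
  have h10 : 649 ^ t + 12 * t + 1 < 59049 ^ t := by
    have ha : 1 ≤ t := by omega
    have hb : t < 649 ^ t := Nat.lt_pow_self (by norm_num)
    have hc : (649 * 90) ^ t ≤ 59049 ^ t := Nat.pow_le_pow_left (by norm_num) t
    rw [mul_pow] at hc
    have hd : 90 ^ 1 ≤ 90 ^ t := Nat.pow_le_pow_right (by norm_num) ha
    have he : 649 ^ t * 90 ^ 1 ≤ 649 ^ t * 90 ^ t := Nat.mul_le_mul_left _ hd
    omega
  rw [h9] at hcard2
  omega

end Pool.Agent.H513R2.IntComp
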